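import Pool.Agent.Y320.ST.Stm

/-! Project ST (helper320): Cousin's lemma for rectangles (job ST-COUSIN). -/

set_option autoImplicit false

namespace Pool.Agent.Y51.ST2

open Pool.Agent.Y320.ST Filter Topology

/-- rectangles -/
structure Q where
  /-- left -/
  a : ℝ
  /-- right -/
  b : ℝ
  /-- bottom -/
  c : ℝ
  /-- top -/
  d : ℝ

/-- bad rectangles -/
def Bad (Φ Ψ : ℝ → ℝ → ℝ → ℝ → ℝ) (q : Q) : Prop :=
  q.a < q.b ∧ q.c < q.d ∧ Ψ q.a q.b q.c q.d < Φ q.a q.b q.c q.d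

/-- contained in -/
def Sub (q q' : Q) : Prop := q'.a ≤ q.a ∧ q.b ≤ q'.b ∧ q'.c ≤ q.c ∧ q.d ≤ q'.d

/-- the ratio of the sides is at most two -/
def Rt (q : Q) : Prop := q.b - q.a ≤ 2 * (q.d - q.c) ∧ q.d - q.c ≤ 2 * (q.b - q.a)

lemma Sub.refl (q : Q) : Sub q q := ⟨le_rfl, le_rfl, le_rfl, le_rfl⟩

lemma Sub.trans {q q' q'' : Q} (h : Sub q q') (h' : Sub q' q'') : Sub q q'' :=
  ⟨h'.1.trans h.1, h.2.1.trans h'.2.1, h'.2.2.1.trans h.2.2.1, h.2.2.2.trans h'.2.2.2⟩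

section

variable {Φ Ψ : ℝ → ℝ → ℝ → ℝ → ℝ}

lemma half_x
    (h1 : ∀ x0 x1 x2 y0 y1, x0 ≤ x1 → x1 ≤ x2 → y0 ≤ y1 →
      Φ x0 x2 y0 y1 ≤ Φ x0 x1 y0 y1 + Φ x1 x2 y0 y1)
    (h2 : ∀ x0 x1 x2 y0 y1, x0 ≤ x1 → x1 ≤ x2 → y0 ≤ y1 →
      Ψ x0 x1 y0 y1 + Ψ x1 x2 y0 y1 ≤ Ψ x0 x2 y0 y1)
    (q : Q) (hq : Bad Φ Ψ q) :
    ∃ q', Bad Φ Ψ q' ∧ Sub q' q ∧ q'.b - q'.a = (q.b - q.a) / 2 ∧ q'.d - q'.c = q.d - q.c := by
  obtain ⟨ha, hc, hb⟩ := hq
  set m := (q.a + q.b) / 2 with hm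
  have e1 := h1 q.a m q.b q.c q.d (by linarith) (by linarith) hc.le
  have e2 := h2 q.a m q.b q.c q.d (by linarith) (by linarith) hc.le
  by_cases h : Ψ q.a m q.c q.d < Φ q.a m q.c q.d
  · refine ⟨⟨q.a, m, q.c, q.d⟩, ⟨?_, hc, h⟩, ⟨le_rfl, ?_, le_rfl, le_rfl⟩, ?_, rfl⟩
    · change q.a < m
      linarith
    · change m ≤ q.b
      linarith
    · change m - q.a = _
      linarith
  · refine ⟨⟨m, q.b, q.c, q.d⟩, ⟨?_, hc, ?_⟩, ⟨?_, le_rfl, le_rfl, le_rfl⟩, ?_, rfl⟩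
    · change m < q.b
      linarith
    · change Ψ m q.b q.c q.d < Φ m q.b q.c q.d
      linarith [not_lt.1 h]
    · change q.a ≤ m
      linarith
    · change q.b - m = _
      linarith

lemma half_y
    (h1 : ∀ x0 x1 y0 y1 y2, x0 ≤ x1 → y0 ≤ y1 → y1 ≤ y2 →
      Φ x0 x1 y0 y2 ≤ Φ x0 x1 y0 y1 + Φ x0 x1 y1 y2)
    (h2 : ∀ x0 x1 y0 y1 y2, x0 ≤ x1 → y0 ≤ y1 → y1 ≤ y2 →
      Ψ x0 x1 y0 y1 + Ψ x0 x1 y1 y2 ≤ Ψ x0 x1 y0 y2)
    (q : Q) (hq : Bad Φ Ψ q) :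
    ∃ q', Bad Φ Ψ q' ∧ Sub q' q ∧ q'.b - q'.a = q.b - q.a ∧ q'.d - q'.c = (q.d - q.c) / 2 := by
  obtain ⟨ha, hc, hb⟩ := hq
  set m := (q.c + q.d) / 2 with hm
  have e1 := h1 q.a q.b q.c m q.d ha.le (by linarith) (by linarith)
  have e2 := h2 q.a q.b q.c m q.d ha.le (by linarith) (by linarith)
  by_cases h : Ψ q.a q.b q.c m < Φ q.a q.b q.c m
  · refine ⟨⟨q.a, q.b, q.c, m⟩, ⟨ha, ?_, h⟩, ⟨le_rfl, le_rfl, le_rfl, ?_⟩, rfl, ?_⟩
    · change q.c < m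
      linarith
    · change m ≤ q.d
      linarith
    · change m - q.c = _
      linarith
  · refine ⟨⟨q.a, q.b, m, q.d⟩, ⟨ha, ?_, ?_⟩, ⟨le_rfl, le_rfl, ?_, le_rfl⟩, rfl, ?_⟩
    · change m < q.d
      linarith
    · change Ψ q.a q.b m q.d < Φ q.a q.b m q.d
      linarith [not_lt.1 h]
    · change q.c ≤ m
      linarith
    · change q.d - m = _
      linarith

end

theorem t_COUSIN : S_COUSIN := by
  intro Φ Ψ h1 h2 h3 h4 X0 X1 Y0 Y1 hX hY hloc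
  by_contra hcon
  have hq0 : Bad Φ Ψ ⟨X0, X1, Y0, Y1⟩ := ⟨hX, hY, not_le.1 hcon⟩
  have HX := fun q hq => half_x (Φ := Φ) (Ψ := Ψ) h1 h3 q hq
  have HY := fun q hq => half_y (Φ := Φ) (Ψ := Ψ) h2 h4 q hq
  -- to the ratio two
  have hA : ∀ k : ℕ, ∀ q, Bad Φ Ψ q → q.b - q.a ≤ 2 ^ (k + 1) * (q.d - q.c) →
      q.d - q.c ≤ 2 ^ (k + 1) * (q.b - q.a) → ∃ q', Bad Φ Ψ q' ∧ Sub q' q ∧ Rt q' := by
    intro k
    induction k with
    | zero =>
      intro q hq ha hb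
      exact ⟨q, hq, Sub.refl q, by simpa using ha, by simpa using hb⟩
    | succ k ih =>
      intro q hq ha hb
      have hqa := hq.1
      have hqc := hq.2.1
      have hp : (1 : ℝ) ≤ 2 ^ k := one_le_pow₀ (by norm_num)
      have e : (2 : ℝ) ^ (k + 1 + 1) = 2 * 2 ^ (k + 1) := by ring
      have e' : (2 : ℝ) ^ (k + 1) = 2 * 2 ^ k := by ring
      rcases le_total (q.d - q.c) (q.b - q.a) with h | h
      · obtain ⟨q', hb', hs, l1, l2⟩ := HX q hq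
        obtain ⟨q'', hb'', hs', hr⟩ := ih q' hb' (by
          rw [l1, l2]
          rw [e] at ha
          linarith) (by
          rw [l1, l2, e']
          nlinarith)
        exact ⟨q'', hb'', hs'.trans hs, hr⟩
      · obtain ⟨q', hb', hs, l1, l2⟩ := HY q hq
        obtain ⟨q'', hb'', hs', hr⟩ := ih q' hb' (by
          rw [l1, l2, e']
          nlinarith) (by
          rw [l1, l2]
          rw [e] at hb
          linarith)
        exact ⟨q'', hb'', hs'.trans hs, hr⟩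
  -- one step
  have hB : ∀ q, Bad Φ Ψ q → Rt q → ∃ q', Bad Φ Ψ q' ∧ Sub q' q ∧ Rt q' ∧
      (q'.b - q'.a) * (q'.d - q'.c) = (q.b - q.a) * (q.d - q.c) / 2 := by
    intro q hq hr
    have hqa := hq.1
    have hqc := hq.2.1
    obtain ⟨r1, r2⟩ := hr
    rcases le_total (q.d - q.c) (q.b - q.a) with h | h
    · obtain ⟨q', hb', hs, l1, l2⟩ := HX q hq
      refine ⟨q', hb', hs, ⟨?_, ?_⟩, ?_⟩
      · rw [l1, l2]
        linarith
      · rw [l1, l2]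
        linarith
      · rw [l1, l2]
        ring
    · obtain ⟨q', hb', hs, l1, l2⟩ := HY q hq
      refine ⟨q', hb', hs, ⟨?_, ?_⟩, ?_⟩
      · rw [l1, l2]
        linarith
      · rw [l1, l2]
        linarith
      · rw [l1, l2]
        ring
  -- the first rectangle
  obtain ⟨q₁, hq₁, hs₁, hr₁⟩ : ∃ q', Bad Φ Ψ q' ∧ Sub q' ⟨X0, X1, Y0, Y1⟩ ∧ Rt q' := by
    obtain ⟨k, hk⟩ := pow_unbounded_of_one_lt (max ((X1 - X0) / (Y1 - Y0)) ((Y1 - Y0) / (X1 - X0)))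
      (by norm_num : (1 : ℝ) < 2)
    have hdx : 0 < X1 - X0 := by linarith
    have hdy : 0 < Y1 - Y0 := by linarith
    have hk1 := (le_max_left _ _).trans_lt hk
    have hk2 := (le_max_right _ _).trans_lt hk
    rw [div_lt_iff₀ hdy] at hk1
    rw [div_lt_iff₀ hdx] at hk2
    have hpow : (2 : ℝ) ^ k ≤ 2 ^ (k + 1) := pow_le_pow_right₀ (by norm_num) (Nat.le_succ k)
    refine hA k _ hq0 ?_ ?_
    · change X1 - X0 ≤ 2 ^ (k + 1) * (Y1 - Y0)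
      exact hk1.le.trans (mul_le_mul_of_nonneg_right hpow hdy.le)
    · change Y1 - Y0 ≤ 2 ^ (k + 1) * (X1 - X0)
      exact hk2.le.trans (mul_le_mul_of_nonneg_right hpow hdx.le)
  choose! g hg using hB
  set s : ℕ → Q := fun n => Nat.rec q₁ (fun _ q => g q) n with hs
  have s0 : s 0 = q₁ := rfl
  have ss : ∀ n, s (n + 1) = g (s n) := fun n => rfl
  have hall : ∀ n, Bad Φ Ψ (s n) ∧ Rt (s n) := by
    intro n
    induction n with
    | zero => exact ⟨hq₁, hr₁⟩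
    | succ n ih =>
      rw [ss]
      obtain ⟨u1, -, u3, -⟩ := hg (s n) ih.1 ih.2
      exact ⟨u1, u3⟩
  have hstep : ∀ n, Sub (s (n + 1)) (s n) := fun n => by
    rw [ss]
    exact (hg (s n) (hall n).1 (hall n).2).2.1
  have harea : ∀ n, ((s n).b - (s n).a) * ((s n).d - (s n).c) =
      (q₁.b - q₁.a) * (q₁.d - q₁.c) * (1 / 2) ^ n := by
    intro n
    induction n with
    | zero => rw [s0, pow_zero, mul_one]
    | succ n ih =>
      rw [ss, (hg (s n) (hall n).1 (hall n).2).2.2.2, ih]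
      ring
  have ma : Monotone fun n => (s n).a := monotone_nat_of_le_succ fun n => (hstep n).1
  have mb : Antitone fun n => (s n).b := antitone_nat_of_succ_le fun n => (hstep n).2.1
  have mc : Monotone fun n => (s n).c := monotone_nat_of_le_succ fun n => (hstep n).2.2.1
  have md : Antitone fun n => (s n).d := antitone_nat_of_succ_le fun n => (hstep n).2.2.2
  have zx := Monotone.ciSup_mem_iInter_Icc_of_antitone ma mb (fun n => (hall n).1.1.le)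
  have zy := Monotone.ciSup_mem_iInter_Icc_of_antitone mc md (fun n => (hall n).1.2.1.le)
  rw [Set.mem_iInter] at zx zy
  set z : ℂ := ⟨⨆ n, (s n).a, ⨆ n, (s n).c⟩ with hz
  have hzm : ∀ n, z ∈ Rect (s n).a (s n).b (s n).c (s n).d := fun n =>
    ⟨(zx n).1, (zx n).2, (zy n).1, (zy n).2⟩
  have hsub : ∀ n, Rect (s n).a (s n).b (s n).c (s n).d ⊆ Rect X0 X1 Y0 Y1 := by
    intro n w hw
    obtain ⟨v1, v2, v3, v4⟩ := hs₁
    have w1 := ma (Nat.zero_le n)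
    have w2 := mb (Nat.zero_le n)
    have w3 := mc (Nat.zero_le n)
    have w4 := md (Nat.zero_le n)
    obtain ⟨t1, t2, t3, t4⟩ := hw
    simp only [s0] at w1 w2 w3 w4
    exact ⟨by linarith, by linarith, by linarith, by linarith⟩
  obtain ⟨δ, hδ, hloc'⟩ := hloc z (hsub 0 (hzm 0))
  obtain ⟨n, hn⟩ : ∃ n : ℕ, 2 * ((q₁.b - q₁.a) * (q₁.d - q₁.c)) * (1 / 2) ^ n < δ ^ 2 := by
    have ht : Tendsto (fun n : ℕ => 2 * ((q₁.b - q₁.a) * (q₁.d - q₁.c)) * (1 / 2 : ℝ) ^ n) atTop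
        (𝓝 (2 * ((q₁.b - q₁.a) * (q₁.d - q₁.c)) * 0)) :=
      (tendsto_pow_atTop_nhds_zero_of_lt_one (by norm_num) (by norm_num)).const_mul _
    rw [mul_zero] at ht
    exact (ht.eventually_lt_const (by positivity)).exists
  obtain ⟨⟨b1, b2, b3⟩, r1, r2⟩ := hall n
  have har := harea n
  have c1 : 0 < (s n).b - (s n).a := by linarith
  have c2 : 0 < (s n).d - (s n).c := by linarith
  have l1 : (s n).b - (s n).a < δ := by
    apply lt_of_pow_lt_pow_left₀ 2 hδ.le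
    nlinarith
  have l2 : (s n).d - (s n).c < δ := by
    apply lt_of_pow_lt_pow_left₀ 2 hδ.le
    nlinarith
  have := hloc' _ _ _ _ (hzm n) (hsub n) b1 b2 l1 l2 r1 r2
  linarith

end Pool.Agent.Y51.ST2
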