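import Pool.Agent.Y320.ST.Stm

/-! Project ST (helper320): rectangles have fat images (job ST-FAT). -/

set_option autoImplicit false

namespace Pool.Agent.Y51.ST2

open Pool.Agent.Y320.ST Filter Topology MeasureTheory Metric

theorem t_FAT : S_FAT := by
  intro H
  set H' : ℝ := max H 1 with hH'
  have hH1 : 1 ≤ H' := le_max_right _ _
  have hpi := Real.pi_pos
  refine ⟨4 * H' ^ 2 / Real.pi, by positivity, ?_⟩
  intro u hu x0 x1 y0 y1 hx hy hr1 hr2
  have hu' : ∀ a b c, dist a b ≤ 3 * dist a c → dist (u a) (u b) ≤ H' * dist (u a) (u c) :=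
    fun a b c h => (hu a b c h).trans
      (mul_le_mul_of_nonneg_right (le_max_left _ _) dist_nonneg)
  set O : Set ℂ := {p : ℂ | x0 < p.re ∧ p.re < x1 ∧ y0 < p.im ∧ p.im < y1} with hO
  set c0 : ℂ := ⟨(x0 + x1) / 2, (y0 + y1) / 2⟩ with hc0
  set a := (x1 - x0) / 2 with ha
  set b := (y1 - y0) / 2 with hb
  set r := min a b with hr
  have ha0 : 0 < a := by linarith
  have hb0 : 0 < b := by linarith
  have hr0 : 0 < r := lt_min ha0 hb0
  have har : a ≤ 2 * r := by
    rcases le_total a b with h | h
    · rw [hr, min_eq_left h]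
      linarith
    · rw [hr, min_eq_right h]
      linarith
  have hbr : b ≤ 2 * r := by
    rcases le_total a b with h | h
    · rw [hr, min_eq_left h]
      linarith
    · rw [hr, min_eq_right h]
      linarith
  have hmin : a ^ 2 + b ^ 2 ≤ 5 * r ^ 2 := by
    rcases le_total a b with h | h
    · have e : r = a := min_eq_left h
      rw [e] at hbr ⊢
      nlinarith
    · have e : r = b := min_eq_right h
      rw [e] at har ⊢
      nlinarith
  have hdist : ∀ z ∈ Rect x0 x1 y0 y1, dist c0 z ≤ 3 * r := by
    intro z hz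
    obtain ⟨z1, z2, z3, z4⟩ := hz
    rw [Complex.dist_eq_re_im]
    apply Real.sqrt_le_iff.2 ⟨by positivity, ?_⟩
    simp only [hc0]
    have e1 : ((x0 + x1) / 2 - z.re) ^ 2 ≤ a ^ 2 := by
      apply sq_le_sq'
      · linarith
      · linarith
    have e2 : ((y0 + y1) / 2 - z.im) ^ 2 ≤ b ^ 2 := by
      apply sq_le_sq'
      · linarith
      · linarith
    nlinarith
  have hball : ball c0 r ⊆ O := by
    intro p hp
    rw [mem_ball, dist_eq_norm] at hp
    have e1 := (Complex.abs_re_le_norm (p - c0)).trans_lt hp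
    have e2 := (Complex.abs_im_le_norm (p - c0)).trans_lt hp
    rw [Complex.sub_re, abs_lt] at e1
    rw [Complex.sub_im, abs_lt] at e2
    simp only [hc0] at e1 e2
    have m1 : r ≤ a := min_le_left _ _
    have m2 : r ≤ b := min_le_right _ _
    exact ⟨by linarith [e1.1], by linarith [e1.2], by linarith [e2.1], by linarith [e2.2]⟩
  have hfin : volume (u '' O) ≠ ⊤ := by
    have hb : Bornology.IsBounded O := by
      refine (isBounded_closedBall (x := c0) (r := 3 * r)).subset fun p hp => ?_
      rw [mem_closedBall, dist_comm]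
      exact hdist p ⟨hp.1.le, hp.2.1.le, hp.2.2.1.le, hp.2.2.2.le⟩
    have hc : IsCompact (u '' closure O) := hb.isCompact_closure.image u.continuous
    exact ((measure_mono (Set.image_mono subset_closure)).trans_lt hc.measure_lt_top).ne
  have key : ∀ z ∈ Rect x0 x1 y0 y1,
      dist (u c0) (u z) ^ 2 * Real.pi ≤ H' ^ 2 * (volume (u '' O)).toReal := by
    intro z hz
    have h1 : ball (u c0) (dist (u c0) (u z) / H') ⊆ u '' O := by
      intro q hq
      refine ⟨u.symm q, ?_, u.apply_symm_apply q⟩
      apply hball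
      rw [mem_ball]
      by_contra hcon
      push Not at hcon
      have h2 := hu' c0 z (u.symm q) (by
        rw [dist_comm c0 (u.symm q)]
        exact (hdist z hz).trans (by linarith))
      rw [u.apply_symm_apply] at h2
      rw [mem_ball, lt_div_iff₀ (by positivity), dist_comm q] at hq
      linarith
    have h2 := measure_mono (μ := volume) h1
    rw [Complex.volume_ball] at h2
    have h3 := ENNReal.toReal_mono hfin h2
    rw [ENNReal.toReal_mul, ENNReal.toReal_pow, ENNReal.toReal_ofReal (by positivity)] at h3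
    have h4 : ((NNReal.pi : NNReal) : ENNReal).toReal = Real.pi := rfl
    rw [h4, div_pow] at h3
    have hp : 0 < H' ^ 2 := by positivity
    calc dist (u c0) (u z) ^ 2 * Real.pi =
        H' ^ 2 * (dist (u c0) (u z) ^ 2 / H' ^ 2 * Real.pi) := by
          field_simp
      _ ≤ H' ^ 2 * (volume (u '' O)).toReal := mul_le_mul_of_nonneg_left h3 hp.le
  intro z hz w hw
  have k1 := key z hz
  have k2 := key w hw
  have htri : dist (u z) (u w) ≤ dist (u c0) (u z) + dist (u c0) (u w) := by
    rw [dist_comm (u c0) (u z)]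
    exact dist_triangle _ _ _
  have hd0 : 0 ≤ dist (u z) (u w) := dist_nonneg
  have h5 : dist (u z) (u w) ^ 2 ≤ 2 * dist (u c0) (u z) ^ 2 + 2 * dist (u c0) (u w) ^ 2 := by
    nlinarith [sq_nonneg (dist (u c0) (u z) - dist (u c0) (u w))]
  rw [div_mul_eq_mul_div, le_div_iff₀ hpi]
  nlinarith

end Pool.Agent.Y51.ST2
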