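import Pool.Agent.Y320.ST.Stm

/-! Project ST (helper320): Morera's theorem (job ST-MORERA). -/

set_option autoImplicit false

namespace Pool.Agent.Y51.ST2

open Pool.Agent.Y320.ST MeasureTheory

lemma rectInt_symm_x (f : ℂ → ℂ) (x0 x1 y0 y1 : ℝ) :
    rectInt f x1 x0 y0 y1 = -rectInt f x0 x1 y0 y1 := by
  unfold rectInt
  rw [intervalIntegral.integral_symm x0 x1, intervalIntegral.integral_symm x0 x1]
  ring

lemma rectInt_symm_y (f : ℂ → ℂ) (x0 x1 y0 y1 : ℝ) :
    rectInt f x0 x1 y1 y0 = -rectInt f x0 x1 y0 y1 := by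
  unfold rectInt
  rw [intervalIntegral.integral_symm y0 y1, intervalIntegral.integral_symm y0 y1]
  ring

theorem t_MORERA : S_MORERA := by
  intro f hf h
  have h1 : ∀ x0 x1 y0 y1 : ℝ, x0 < x1 → rectInt f x0 x1 y0 y1 = 0 := by
    intro x0 x1 y0 y1 hx
    rcases lt_trichotomy y0 y1 with hy | hy | hy
    · exact h x0 x1 y0 y1 hx hy
    · subst hy
      simp [rectInt]
    · rw [rectInt_symm_y, h x0 x1 y1 y0 hx hy, neg_zero]
  have h2 : ∀ x0 x1 y0 y1 : ℝ, rectInt f x0 x1 y0 y1 = 0 := by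
    intro x0 x1 y0 y1
    rcases lt_trichotomy x0 x1 with hx | hx | hx
    · exact h1 x0 x1 y0 y1 hx
    · subst hx
      simp [rectInt]
    · rw [rectInt_symm_x, h1 x1 x0 y0 y1 hx, neg_zero]
  have h3 : Complex.IsConservativeOn f Set.univ := by
    intro z w _
    rw [← add_eq_zero_iff_eq_neg, Complex.wedgeIntegral_add_wedgeIntegral_eq]
    have h4 := h2 z.re w.re z.im w.im
    unfold rectInt at h4
    simpa only [smul_eq_mul] using h4
  exact differentiableOn_univ.1
    ((Complex.isConservativeOn_and_continuousOn_iff_isDifferentiableOn isOpen_univ).1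
      ⟨h3, hf.continuousOn⟩)

end Pool.Agent.Y51.ST2
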